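import Pool.Agent.SSO.Fin

/-! # Strong surjectivity of linear orders need not reflect (MP_ceadec_lc, Q1, negated form)

There is a model of `ZFC` with a strongly surjective linear order `L` and an uncountable subset `K` of `L` with
`|K| < |L|` such that no uncountable suborder `B` of `L` with `|B| ≤ |K|` is strongly surjective.

Conditions have a countable part (a set of triples `(ξ, x, w)`, `w ∈ W ξ x`, the block `w` is given to the point `x`
by the monotone function with label `ξ`; the blocks of two labels must be almost disjoint) and a finite part (cuts of points by
rational numbers, bits of the generic subsets, pieces of the generic monotone functions). The proof that `B` is not strongly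
surjective amalgamates three copies of a condition, flips a bit of the third, and adds a fourth copy. -/

namespace Pool.Agent.Results.MP_ceadec_lc.NoReflection

open STP SSO

theorem result : ∃ (N : Type 2) (E : N → N → Prop), ZFC E ∧ NegSS E := SSO.main

end Pool.Agent.Results.MP_ceadec_lc.NoReflection
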